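import Pool.Agent.Work.MP_ce3f89_co.Defs

/-! # Block B2: orbits of the group generated by two permutations -/

namespace Pool.MP_ce3f89
open Finset

namespace B2

variable {E : Type*} [Fintype E] [DecidableEq E]

/-- The orbits of the group generated by `p` and `q`. -/
def os (p q : Equiv.Perm E) : Setoid E where
  r a b := ∃ g ∈ Subgroup.closure ({p, q} : Set (Equiv.Perm E)), g a = b
  iseqv := ⟨fun a => ⟨1, one_mem _, rfl⟩,
    fun {a b} ⟨g, hg, h⟩ => ⟨g⁻¹, inv_mem hg, by rw [← h]; simp⟩,
    fun {a b c} ⟨g, hg, h⟩ ⟨g', hg', h'⟩ => ⟨g' * g, mul_mem hg' hg, by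
      rw [Equiv.Perm.mul_apply, h, h']⟩⟩

lemma inv_closure (p q : Equiv.Perm E) (T : E → Prop) (hp : ∀ e, T e ↔ T (p e))
    (hq : ∀ e, T e ↔ T (q e)) {a b : E} (h : (os p q) a b) : T a ↔ T b := by
  obtain ⟨g, hg, rfl⟩ := h
  have key : ∀ a, T a ↔ T (g a) := by
    refine Subgroup.closure_induction (p := fun g _ => ∀ a, T a ↔ T (g a)) ?_ ?_ ?_ ?_ hg
    · intro x hx a
      rcases hx with rfl | hx
      · exact hp a
      · rw [Set.mem_singleton_iff] at hx
        subst hx
        exact hq a
    · intro a
      rfl
    · intro x y _ _ hx hy a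
      rw [Equiv.Perm.mul_apply]
      exact (hy a).trans (hx (y a))
    · intro x _ hx a
      have := hx (x⁻¹ a)
      rw [show x (x⁻¹ a) = a by simp] at this
      exact this.symm
  exact key a

omit [Fintype E] [DecidableEq E] in
lemma rel_p (p q : Equiv.Perm E) (e : E) : (os p q) e (p e) :=
  ⟨p, Subgroup.subset_closure (by simp), rfl⟩

omit [Fintype E] [DecidableEq E] in
lemma rel_q (p q : Equiv.Perm E) (e : E) : (os p q) e (q e) :=
  ⟨q, Subgroup.subset_closure (by simp), rfl⟩

lemma eq_of_fixed (p q : Equiv.Perm E) {e b : E} (hp : p e = e) (hq : q e = e)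
    (h : (os p q) e b) : b = e := by
  refine (inv_closure p q (fun x => x = e) (fun x => ?_) (fun x => ?_) h).1 rfl
  · constructor
    · rintro rfl; exact hp
    · intro hx; exact p.injective (hx.trans hp.symm)
  · constructor
    · rintro rfl; exact hq
    · intro hx; exact q.injective (hx.trans hq.symm)

end B2

open B2

section
variable {E : Type*} [Fintype E] [DecidableEq E]

theorem count_two (p q : Equiv.Perm E) (X Y Z : Finset E) :
    ∃ c : ℕ, 6 * c + 3 * (fixs p ∩ fixs q).card + pdist p q
        ≤ 3 * Fintype.card E + (symmDiff (fixs p) (fixs q)).card ∧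
      (univ.filter (fun A : Finset E => dset p A = X ∧ dset q A = Y ∧
        ∀ e, e ∈ fixs p → e ∈ fixs q → (e ∈ A ↔ e ∈ Z))).card ≤ 2 ^ c := by
  classical
  let Q := Quotient (os p q)
  let cl : E → Q := fun e => Quotient.mk (os p q) e
  let F : Q → Finset E := fun c => univ.filter (fun e => cl e = c)
  have hcl : ∀ a b, (os p q) a b → cl a = cl b := fun a b h => Quotient.sound h
  have hcl' : ∀ a b, cl a = cl b → (os p q) a b := fun a b h => Quotient.exact h
  have hpF : ∀ c, ∀ e ∈ F c, p e ∈ F c := by
    intro c e he
    simp only [F, mem_filter, mem_univ, true_and] at he ⊢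
    rw [← he]; exact (hcl _ _ (rel_p p q e)).symm
  have hqF : ∀ c, ∀ e ∈ F c, q e ∈ F c := by
    intro c e he
    simp only [F, mem_filter, mem_univ, true_and] at he ⊢
    rw [← he]; exact (hcl _ _ (rel_q p q e)).symm
  let S : Finset Q := univ.filter (fun c => 2 ≤ (F c).card)
  refine ⟨S.card, ?_, ?_⟩
  · -- counting
    have e1 : pdist p q = ∑ e : E, (if p e ≠ q e then 1 else 0) := by
      unfold pdist
      rw [← Finset.card_filter]
      congr 1
      ext e
      rw [Equiv.Perm.mem_support, mem_filter, Equiv.Perm.mul_apply]
      simp only [mem_univ, true_and, ne_eq]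
      rw [Equiv.Perm.inv_eq_iff_eq]
      exact ⟨fun h h' => h h'.symm, fun h h' => h h'.symm⟩
    have e2 : (symmDiff (fixs p) (fixs q)).card =
        ∑ e : E, (if e ∈ symmDiff (fixs p) (fixs q) then 1 else 0) := by
      rw [← Finset.card_filter]
      congr 1
      ext e; simp
    have e3 : (fixs p ∩ fixs q).card = ∑ e : E, (if e ∈ fixs p ∩ fixs q then 1 else 0) := by
      rw [← Finset.card_filter]
      congr 1
      ext e; simp
    have e4 : Fintype.card E = ∑ e : E, 1 := by simp
    have e5 : S.card = ∑ c : Q, (if 2 ≤ (F c).card then 1 else 0) := by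
      rw [← Finset.card_filter]
    have fib : ∀ f : E → ℕ, ∑ e : E, f e = ∑ c : Q, ∑ e ∈ F c, f e := by
      intro f
      exact (Finset.sum_fiberwise (s := (univ : Finset E)) (g := cl) (f := f)).symm
    rw [e1, e2, e3, e4, e5, fib, fib, fib, fib, Finset.mul_sum, Finset.mul_sum, Finset.mul_sum,
      ← Finset.sum_add_distrib, ← Finset.sum_add_distrib, ← Finset.sum_add_distrib]
    apply Finset.sum_le_sum
    intro c _
    obtain ⟨e0, he0⟩ : ∃ e, cl e = c := Quotient.exists_rep c
    have he0F : e0 ∈ F c := by simp [F, he0]
    have hpos : 1 ≤ (F c).card := Finset.card_pos.2 ⟨e0, he0F⟩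
    rw [Finset.sum_const, smul_eq_mul, mul_one]
    by_cases h2 : 2 ≤ (F c).card
    · rw [if_pos h2]
      have hf : ∑ e ∈ F c, (if e ∈ fixs p ∩ fixs q then 1 else 0) = 0 := by
        apply Finset.sum_eq_zero
        intro e he
        rw [if_neg]
        intro hfix
        simp only [fixs, mem_inter, mem_filter, mem_univ, true_and] at hfix
        have hsub : F c ⊆ {e} := by
          intro b hb
          simp only [F, mem_filter, mem_univ, true_and] at he hb
          rw [mem_singleton]
          exact eq_of_fixed p q hfix.1 hfix.2 (hcl' _ _ (he.trans hb.symm))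
        have := Finset.card_le_card hsub
        rw [Finset.card_singleton] at this
        omega
      rw [hf]
      have ha : ∑ e ∈ F c, (if p e ≠ q e then 1 else 0) ≤ (F c).card := by
        calc ∑ e ∈ F c, (if p e ≠ q e then 1 else 0) ≤ ∑ e ∈ F c, 1 := by
              apply Finset.sum_le_sum
              intro e _
              split_ifs <;> omega
          _ = (F c).card := by simp
      by_cases h3 : 3 ≤ (F c).card
      · omega
      · have h22 : (F c).card = 2 := by omega
        obtain ⟨x, y, hxy, hF⟩ := Finset.card_eq_two.1 h22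
        have hab : ∑ e ∈ F c, (if p e ≠ q e then 1 else 0) ≤
            ∑ e ∈ F c, (if e ∈ symmDiff (fixs p) (fixs q) then 1 else 0) := by
          apply Finset.sum_le_sum
          intro e he
          by_cases hpq : p e = q e
          · simp [hpq]
          · have hm : e ∈ symmDiff (fixs p) (fixs q) := by
              have h1 := hpF c e he
              have h2 := hqF c e he
              rw [hF, mem_insert, mem_singleton] at he h1 h2
              rw [Finset.mem_symmDiff]
              simp only [fixs, mem_filter, mem_univ, true_and]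
              rcases he with he | he <;> rcases h1 with h1 | h1 <;> rcases h2 with h2 | h2 <;>
                first
                | exact absurd (h1.trans h2.symm) hpq
                | (rw [h1, h2, he]
                   first
                   | exact Or.inl ⟨rfl, fun h => hxy h.symm⟩
                   | exact Or.inl ⟨rfl, fun h => hxy h⟩
                   | exact Or.inr ⟨rfl, fun h => hxy h.symm⟩
                   | exact Or.inr ⟨rfl, fun h => hxy h⟩)
            simp [hm, hpq]
        omega
    · rw [if_neg h2]
      have h1 : (F c).card = 1 := by omega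
      obtain ⟨x, hx⟩ := Finset.card_eq_one.1 h1
      have hpx := hpF c x (by rw [hx]; exact mem_singleton_self x)
      have hqx := hqF c x (by rw [hx]; exact mem_singleton_self x)
      rw [hx, mem_singleton] at hpx hqx
      rw [hx, Finset.sum_singleton, Finset.sum_singleton, Finset.sum_singleton, hpx, hqx]
      simp only [ne_eq, not_true_eq_false, if_false, Finset.card_singleton]
      split_ifs <;> omega
  · -- the number of sets
    have hpow : (2 : ℕ) ^ S.card = S.powerset.card := (Finset.card_powerset S).symm
    rw [hpow]
    refine Finset.card_le_card_of_injOn (fun A => S.filter (fun c => Quotient.out c ∈ A)) ?_ ?_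
    · intro A _
      exact Finset.mem_coe.2 (Finset.mem_powerset.2 (Finset.filter_subset _ _))
    · intro A hA A' hA' hAA
      rw [Finset.mem_coe, Finset.mem_filter] at hA hA'
      replace hA := hA.2
      replace hA' := hA'.2
      obtain ⟨a1, a2, a3⟩ := hA
      obtain ⟨b1, b2, b3⟩ := hA'
      have inv1 : ∀ e, (e ∈ A ↔ e ∈ A') ↔ (p e ∈ A ↔ p e ∈ A') := by
        intro e
        have h1 : e ∈ dset p A ↔ e ∈ dset p A' := by rw [a1, b1]
        simp only [dset, mem_filter, mem_univ, true_and] at h1
        tauto
      have inv2 : ∀ e, (e ∈ A ↔ e ∈ A') ↔ (q e ∈ A ↔ q e ∈ A') := by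
        intro e
        have h1 : e ∈ dset q A ↔ e ∈ dset q A' := by rw [a2, b2]
        simp only [dset, mem_filter, mem_univ, true_and] at h1
        tauto
      ext e
      by_cases hS : cl e ∈ S
      · have h1 : Quotient.out (cl e) ∈ A ↔ Quotient.out (cl e) ∈ A' := by
          have h2 : cl e ∈ S.filter (fun c => Quotient.out c ∈ A) ↔
              cl e ∈ S.filter (fun c => Quotient.out c ∈ A') := by
            have := congrArg (fun s => cl e ∈ s) hAA
            exact iff_of_eq this
          simp only [mem_filter, hS, true_and] at h2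
          exact h2
        have h3 : (os p q) (Quotient.out (cl e)) e := hcl' _ _ (Quotient.out_eq (cl e))
        exact (inv_closure p q (fun x => x ∈ A ↔ x ∈ A') inv1 inv2 h3).1 h1
      · have h1 : ¬ 2 ≤ (F (cl e)).card := by
          intro h
          exact hS (by simp [S, h])
        have he : e ∈ F (cl e) := by simp [F]
        have h2 : (F (cl e)).card ≤ 1 := by omega
        have h3 := Finset.card_le_one.1 h2
        have hp1 : p e = e := h3 _ (hpF _ _ he) _ he
        have hq1 : q e = e := h3 _ (hqF _ _ he) _ he
        have m1 : e ∈ fixs p := by simp [fixs, hp1]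
        have m2 : e ∈ fixs q := by simp [fixs, hq1]
        exact (a3 e m1 m2).trans (b3 e m1 m2).symm

end

end Pool.MP_ce3f89
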