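import Pool.Agent.Work.MP_ce3f89_co.Defs

/-!
# MP_ce3f89_co, block B3b: double counting of exceptional pairs
-/

namespace Pool.MP_ce3f89
open Finset

namespace B3b

theorem exists_indeg {α : Type*} (S : Finset α) (exc : α → α → Prop) (g : ℕ)
    [∀ a, DecidablePred (exc a)]
    (h : ∀ a ∈ S, (S.filter (fun b => exc a b)).card ≤ g) (hS : 0 < S.card) :
    ∃ a ∈ S, (S.filter (fun b => exc b a)).card ≤ g := by
  by_contra hcon
  push Not at hcon
  have h1 := Finset.card_mul_le_card_mul (s := S) (t := S) (fun b a => exc a b) (m := g + 1)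
    (n := g) (fun b hb => hcon b hb) (fun a ha => h a ha)
  have h2 : S.card * g < S.card * (g + 1) := Nat.mul_lt_mul_of_pos_left (Nat.lt_succ_self g) hS
  omega

theorem step {α : Type*} [DecidableEq α] (S : Finset α) (exc : α → α → Prop) (g : ℕ)
    [∀ a, DecidablePred (exc a)]
    (h : ∀ a ∈ S, (S.filter (fun b => exc a b)).card ≤ g) (hS : 0 < S.card) :
    ∃ a ∈ S, ∃ S' ⊆ S, S.card ≤ S'.card + 2 * g ∧ ∀ b ∈ S', ¬ exc a b ∧ ¬ exc b a := by
  obtain ⟨a, ha, hd⟩ := exists_indeg S exc g h hS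
  refine ⟨a, ha, S \ (S.filter (fun b => exc a b) ∪ S.filter (fun b => exc b a)),
    Finset.sdiff_subset, ?_, ?_⟩
  · have h1 := Finset.le_card_sdiff (S.filter (fun b => exc a b) ∪ S.filter (fun b => exc b a)) S
    have h2 := Finset.card_union_le (S.filter (fun b => exc a b)) (S.filter (fun b => exc b a))
    have h3 := h a ha
    omega
  · intro b hb
    obtain ⟨hb1, hb2⟩ := Finset.mem_sdiff.1 hb
    simp only [Finset.mem_union, Finset.mem_filter, not_or, not_and] at hb2
    exact ⟨hb2.1 hb1, hb2.2 hb1⟩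

end B3b

section B3

/-- three members of `S`, pairwise not exceptional in either direction. -/
theorem exists_triple {α : Type*} [DecidableEq α] (S : Finset α) (exc : α → α → Prop) (g : ℕ)
    [∀ a, DecidablePred (exc a)]
    (h : ∀ a ∈ S, (S.filter (fun b => exc a b)).card ≤ g) (hS : 6 * g < S.card) :
    ∃ a ∈ S, ∃ b ∈ S, ∃ c ∈ S, ¬ exc a b ∧ ¬ exc b a ∧ ¬ exc a c ∧ ¬ exc c a ∧
      ¬ exc b c ∧ ¬ exc c b := by
  obtain ⟨a, ha, S1, hS1, hc1, he1⟩ := B3b.step S exc g h (by omega)
  obtain ⟨b, hb, S2, hS2, hc2, he2⟩ := B3b.step S1 exc g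
    (fun a ha => le_trans (Finset.card_le_card (Finset.filter_subset_filter _ hS1)) (h a (hS1 ha)))
    (by omega)
  obtain ⟨c, hc⟩ := Finset.card_pos.1 (show 0 < S2.card by omega)
  exact ⟨a, ha, b, hS1 hb, c, hS1 (hS2 hc), (he1 b hb).1, (he1 b hb).2, (he1 c (hS2 hc)).1,
    (he1 c (hS2 hc)).2, (he2 c hc).1, (he2 c hc).2⟩

/-- few elements of `T` have large in-degree from `S`. -/
theorem card_large_indeg {α : Type*} [DecidableEq α] (S T : Finset α) (exc : α → α → Prop)
    [∀ a, DecidablePred (exc a)] (g : ℕ)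
    (h : ∀ a ∈ S, (T.filter (fun b => exc a b)).card ≤ g) :
    2 * (T.filter (fun b => 2 * g < (S.filter (fun a => exc a b)).card)).card ≤ S.card := by
  have h1 := Finset.card_mul_le_card_mul
    (s := T.filter (fun b => 2 * g < (S.filter (fun a => exc a b)).card)) (t := S)
    (fun b a => exc a b) (m := 2 * g + 1) (n := g)
    (fun b hb => (Finset.mem_filter.1 hb).2)
    (fun a ha => le_trans (Finset.card_le_card
      (Finset.filter_subset_filter _ (Finset.filter_subset _ _))) (h a ha))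
  generalize (T.filter (fun b => 2 * g < (S.filter (fun a => exc a b)).card)).card = x at h1 ⊢
  rcases Nat.eq_zero_or_pos g with hg | hg
  · subst hg
    omega
  · refine Nat.le_of_mul_le_mul_right ?_ hg
    nlinarith

end B3

end Pool.MP_ce3f89
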