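import Pool.Agent.Work.MP_ce3f89_co.B1a
import Pool.Agent.Work.MP_ce3f89_co.B2
import Pool.Agent.Work.MP_ce3f89_co.B3a


namespace Pool.MP_ce3f89
open Finset

section B4
variable {E : Type*} [Fintype E] [DecidableEq E]

omit [Fintype E] in
theorem card_symmDiff_add (s t : Finset E) :
    2 * (s ∩ t).card + (symmDiff s t).card = s.card + t.card := by
  have h1 : (symmDiff s t).card = (s \ t).card + (t \ s).card := by
    rw [symmDiff_def, sup_eq_union]
    exact card_union_of_disjoint (disjoint_sdiff_sdiff)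
  have h2 := card_sdiff_add_card_inter s t
  have h3 := card_sdiff_add_card_inter t s
  rw [inter_comm t s] at h3
  omega

/-- counting by the two defect sets and the trace on the common fixed elements -/
theorem count_fiber (p q : Equiv.Perm E) (S : Finset (Finset E)) (u v : ℕ)
    (hX : ∀ A ∈ S, (dset p A).card ≤ (fixs p).card + u)
    (hY : ∀ A ∈ S, (dset q A).card ≤ (fixs q).card + v)
    (W : Finset (Finset E)) (hW : ∀ A ∈ S, A ∩ (fixs p ∩ fixs q) ∈ W) (M : ℕ)
    (hM : ∀ X Y Z : Finset E, (univ.filter (fun A : Finset E => dset p A = X ∧ dset q A = Y ∧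
        ∀ e, e ∈ fixs p → e ∈ fixs q → (e ∈ A ↔ e ∈ Z))).card ≤ M) :
    S.card ≤ M * ((Fintype.card E + 1) ^ u * ((Fintype.card E + 1) ^ v * W.card)) := by
  classical
  let f : Finset E → Finset E × Finset E × Finset E :=
    fun A => (dset p A, dset q A, A ∩ (fixs p ∩ fixs q))
  have h1 : S.card ≤ M * (S.image f).card := by
    refine card_le_mul_card_image S M fun a ha => ?_
    refine (card_le_card ?_).trans (hM a.1 a.2.1 a.2.2)
    intro A hA
    rw [mem_filter] at hA
    have hA2 := hA.2
    rw [mem_filter]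
    refine ⟨mem_univ _, ?_, ?_, ?_⟩
    · rw [← hA2]
    · rw [← hA2]
    · intro e h1 h2
      rw [← hA2]
      show e ∈ A ↔ e ∈ A ∩ (fixs p ∩ fixs q)
      rw [mem_inter, mem_inter]
      exact ⟨fun h => ⟨h, h1, h2⟩, fun h => h.1⟩
  have h2 : S.image f ⊆ (univ.filter (fun X : Finset E => fixs p ⊆ X ∧ X.card ≤ (fixs p).card + u)) ×ˢ
      ((univ.filter (fun X : Finset E => fixs q ⊆ X ∧ X.card ≤ (fixs q).card + v)) ×ˢ W) := by
    intro x hx
    obtain ⟨A, hA, rfl⟩ := mem_image.1 hx
    rw [mem_product, mem_product, mem_filter, mem_filter]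
    exact ⟨⟨mem_univ _, fixs_subset_dset p A, hX A hA⟩,
      ⟨mem_univ _, fixs_subset_dset q A, hY A hA⟩, hW A hA⟩
  refine h1.trans (Nat.mul_le_mul_left M ((card_le_card h2).trans ?_))
  rw [card_product, card_product]
  exact Nat.mul_le_mul (card_above _ u) (Nat.mul_le_mul_right _ (card_above _ v))

theorem pair1 (p q : Equiv.Perm E) (t m c : ℕ)
    (hc : 3 * Fintype.card E + 3 * t ≤ 6 * c + m) (hm : m ≤ pdist p q) :
    (univ.filter (fun A : Finset E => (dset p A).card ≤ t ∧ (dset q A).card ≤ t)).card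
      ≤ (Fintype.card E + 1) ^ (2 * t) * 2 ^ c := by
  classical
  rcases (univ.filter (fun A : Finset E => (dset p A).card ≤ t ∧
    (dset q A).card ≤ t)).eq_empty_or_nonempty with h0 | ⟨A0, hA0⟩
  · rw [h0, card_empty]
    exact Nat.zero_le _
  · have hA := (mem_filter.1 hA0).2
    have hp : (fixs p).card ≤ t := (card_le_card (fixs_subset_dset p A0)).trans hA.1
    have hq : (fixs q).card ≤ t := (card_le_card (fixs_subset_dset q A0)).trans hA.2
    have hs := card_symmDiff_add (fixs p) (fixs q)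
    have ha1 : (fixs p ∩ fixs q).card ≤ (fixs p).card := card_le_card inter_subset_left
    have key : ∀ c' : ℕ, 6 * c' + 3 * (fixs p ∩ fixs q).card + pdist p q
        ≤ 3 * Fintype.card E + (symmDiff (fixs p) (fixs q)).card →
        (fixs p ∩ fixs q).card + c' ≤ c := by
      intro c' hc'
      omega
    have hac : (fixs p ∩ fixs q).card ≤ c := by
      obtain ⟨c', hc', _⟩ := count_two p q ∅ ∅ ∅
      have := key c' hc'
      omega
    have h := count_fiber p q (univ.filter (fun A : Finset E => (dset p A).card ≤ t ∧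
      (dset q A).card ≤ t)) (t - (fixs p).card) (t - (fixs q).card)
      (fun A hA => by
        have := (mem_filter.1 hA).2.1
        omega)
      (fun A hA => by
        have := (mem_filter.1 hA).2.2
        omega)
      (fixs p ∩ fixs q).powerset (fun A _ => mem_powerset.2 inter_subset_right)
      (2 ^ (c - (fixs p ∩ fixs q).card))
      (fun X Y Z => by
        obtain ⟨c', hc', h⟩ := count_two p q X Y Z
        have := key c' hc'
        exact h.trans (Nat.pow_le_pow_right (by norm_num) (by omega)))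
    refine h.trans ?_
    rw [card_powerset]
    have e1 : (2 : ℕ) ^ c = 2 ^ (c - (fixs p ∩ fixs q).card) * 2 ^ (fixs p ∩ fixs q).card := by
      rw [← pow_add]
      congr 1
      omega
    have e2 : (Fintype.card E + 1) ^ (t - (fixs p).card) * (Fintype.card E + 1) ^ (t - (fixs q).card)
        ≤ (Fintype.card E + 1) ^ (2 * t) := by
      rw [← pow_add]
      exact Nat.pow_le_pow_right (by omega) (by omega)
    calc 2 ^ (c - (fixs p ∩ fixs q).card) * ((Fintype.card E + 1) ^ (t - (fixs p).card) *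
          ((Fintype.card E + 1) ^ (t - (fixs q).card) * 2 ^ (fixs p ∩ fixs q).card))
        = ((Fintype.card E + 1) ^ (t - (fixs p).card) * (Fintype.card E + 1) ^ (t - (fixs q).card)) *
          (2 ^ (c - (fixs p ∩ fixs q).card) * 2 ^ (fixs p ∩ fixs q).card) := by ring
      _ ≤ _ := by
        rw [← e1]
        exact Nat.mul_le_mul_right _ e2

theorem bad1 (P : Finset (Equiv.Perm E)) (t m c : ℕ)
    (hc : 3 * Fintype.card E + 3 * t ≤ 6 * c + m) :
    (univ.filter (fun A : Finset E => ∃ p ∈ P, ∃ q ∈ P, (dset p A).card ≤ t ∧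
      (dset q A).card ≤ t ∧ m ≤ pdist p q)).card
      ≤ P.card ^ 2 * (Fintype.card E + 1) ^ (2 * t) * 2 ^ c := by
  classical
  have h1 : univ.filter (fun A : Finset E => ∃ p ∈ P, ∃ q ∈ P, (dset p A).card ≤ t ∧
      (dset q A).card ≤ t ∧ m ≤ pdist p q) ⊆
      ((P ×ˢ P).filter (fun x => m ≤ pdist x.1 x.2)).biUnion (fun x => univ.filter
        (fun A : Finset E => (dset x.1 A).card ≤ t ∧ (dset x.2 A).card ≤ t)) := by
    intro A hA
    obtain ⟨p, hp, q, hq, h1, h2, h3⟩ := (mem_filter.1 hA).2
    rw [mem_biUnion]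
    refine ⟨(p, q), mem_filter.2 ⟨mem_product.2 ⟨hp, hq⟩, h3⟩, mem_filter.2 ⟨mem_univ _, h1, h2⟩⟩
  refine (card_le_card h1).trans ?_
  refine (card_biUnion_le_card_mul _ _ ((Fintype.card E + 1) ^ (2 * t) * 2 ^ c)
    (fun x hx => pair1 x.1 x.2 t m c hc (mem_filter.1 hx).2)).trans ?_
  rw [mul_assoc]
  refine Nat.mul_le_mul_right _ ?_
  refine (card_le_card (filter_subset _ _)).trans ?_
  rw [card_product, pow_two]
end B4

end Pool.MP_ce3f89
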