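import Pool.Agent.Work.MP_ce3f89_co.B4


namespace Pool.MP_ce3f89
open Finset

section B5
variable {E : Type*} [Fintype E] [DecidableEq E]

theorem pair2 (p q : Equiv.Perm E) (t u c : ℕ) (A : Finset E)
    (hup : t ≤ (fixs p).card + u) (huq : t ≤ (fixs q).card + u)
    (hc : (fixs p).card ≤ t → (fixs q).card ≤ t →
      3 * Fintype.card E + (symmDiff (fixs p) (fixs q)).card
        ≤ 6 * c + 3 * (fixs p ∩ fixs q).card + pdist p q) :
    (univ.filter (fun B : Finset E => Rel p B A ∧ (dset p B).card ≤ t ∧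
      (dset q B).card ≤ t)).card ≤ (Fintype.card E + 1) ^ (2 * u) * 2 ^ c := by
  classical
  rcases (univ.filter (fun B : Finset E => Rel p B A ∧ (dset p B).card ≤ t ∧
      (dset q B).card ≤ t)).eq_empty_or_nonempty with h0 | ⟨B0, hB0⟩
  · rw [h0, card_empty]
    exact Nat.zero_le _
  · have hB := (mem_filter.1 hB0).2
    have hp : (fixs p).card ≤ t := (card_le_card (fixs_subset_dset p B0)).trans hB.2.1
    have hq : (fixs q).card ≤ t := (card_le_card (fixs_subset_dset q B0)).trans hB.2.2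
    have hcc := hc hp hq
    have h := count_fiber p q (univ.filter (fun B : Finset E => Rel p B A ∧ (dset p B).card ≤ t ∧
      (dset q B).card ≤ t)) u u
      (fun B hB => by
        have := (mem_filter.1 hB).2.2.1
        omega)
      (fun B hB => by
        have := (mem_filter.1 hB).2.2.2
        omega)
      {A ∩ (fixs p ∩ fixs q)}
      (fun B hB => by
        have hR := (mem_filter.1 hB).2.1
        rw [mem_singleton]
        ext e
        simp only [mem_inter]
        constructor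
        · rintro ⟨h1, h2, h3⟩
          exact ⟨(hR.fix h2).1 h1, h2, h3⟩
        · rintro ⟨h1, h2, h3⟩
          exact ⟨(hR.fix h2).2 h1, h2, h3⟩)
      (2 ^ c)
      (fun X Y Z => by
        obtain ⟨c', hc', h⟩ := count_two p q X Y Z
        exact h.trans (Nat.pow_le_pow_right (by norm_num) (by omega)))
    refine h.trans (le_of_eq ?_)
    rw [card_singleton, mul_one, two_mul, pow_add]
    ring

theorem bad2 (Q : Finset (Equiv.Perm E)) (t u c : ℕ) (A : Finset E)
    (hu : ∀ p ∈ Q, t ≤ (fixs p).card + u)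
    (hc : ∀ p ∈ Q, ∀ q ∈ Q, p ≠ q → (fixs p).card ≤ t → (fixs q).card ≤ t →
      3 * Fintype.card E + (symmDiff (fixs p) (fixs q)).card
        ≤ 6 * c + 3 * (fixs p ∩ fixs q).card + pdist p q) :
    (univ.filter (fun B : Finset E => ∃ p ∈ Q, ∃ q ∈ Q, p ≠ q ∧ Rel p B A ∧
      (dset p B).card ≤ t ∧ (dset q B).card ≤ t)).card
      ≤ Q.card ^ 2 * (Fintype.card E + 1) ^ (2 * u) * 2 ^ c := by
  classical
  have h1 : univ.filter (fun B : Finset E => ∃ p ∈ Q, ∃ q ∈ Q, p ≠ q ∧ Rel p B A ∧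
      (dset p B).card ≤ t ∧ (dset q B).card ≤ t) ⊆
      ((Q ×ˢ Q).filter (fun x => x.1 ≠ x.2)).biUnion (fun x => univ.filter
        (fun B : Finset E => Rel x.1 B A ∧ (dset x.1 B).card ≤ t ∧ (dset x.2 B).card ≤ t)) := by
    intro B hB
    obtain ⟨p, hp, q, hq, h1, h2⟩ := (mem_filter.1 hB).2
    rw [mem_biUnion]
    refine ⟨(p, q), mem_filter.2 ⟨mem_product.2 ⟨hp, hq⟩, h1⟩, mem_filter.2 ⟨mem_univ _, h2⟩⟩
  refine (card_le_card h1).trans ?_
  refine (card_biUnion_le_card_mul _ _ ((Fintype.card E + 1) ^ (2 * u) * 2 ^ c)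
    (fun x hx => ?_)).trans ?_
  · obtain ⟨hx1, hx2⟩ := mem_filter.1 hx
    obtain ⟨hp, hq⟩ := mem_product.1 hx1
    exact pair2 x.1 x.2 t u c A (hu _ hp) (hu _ hq) (hc _ hp _ hq hx2)
  rw [mul_assoc]
  refine Nat.mul_le_mul_right _ ?_
  refine (card_le_card (filter_subset _ _)).trans ?_
  rw [card_product, pow_two]
end B5

end Pool.MP_ce3f89
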