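import Pool.Agent.Work.MP_ce3f89_co.B1a
import Pool.Agent.Work.MP_ce3f89_co.B1b
import Pool.Agent.Work.MP_ce3f89_co.B3b


namespace Pool.MP_ce3f89
open Finset

section B6
variable {E : Type*} [Fintype E] [DecidableEq E]

theorem step1 (P : Finset (Equiv.Perm E)) (hinv : ∀ p ∈ P, p⁻¹ ∈ P) (F : Finset (Finset E))
    (hF : ∀ A ∈ F, ∀ B ∈ F, ∃ p ∈ P, Rel p A B) (t m β γ : ℕ)
    (hβ : (F.filter (fun A => ∃ p ∈ P, ∃ q ∈ P, (dset p A).card ≤ t ∧ (dset q A).card ≤ t ∧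
      m ≤ pdist p q)).card ≤ β)
    (hγ : ∀ A ∈ F, (F.filter (fun B => ∃ p ∈ P, Rel p A B ∧ t < (dset p A).card)).card ≤ γ)
    (hM : 20 * (β + γ) < F.card) :
    ∃ x ∈ P, ∃ F' ⊆ F, F.card ≤ F'.card + (β + 3 * γ) ∧ pdist x x⁻¹ < 4 * m ∧
      ∀ B ∈ F', (F.filter (fun C => ∃ z ∈ P, Rel z B C ∧
        ¬ (pdist z x < 6 * m ∧ pdist z x⁻¹ < 6 * m))).card ≤ γ := by
  classical
  -- a good centre
  have hind := card_large_indeg F F (fun A B => ∃ p ∈ P, Rel p A B ∧ t < (dset p A).card) γ hγ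
  obtain ⟨A0, hA0, hA1, hA2⟩ : ∃ A0 ∈ F, ¬ (∃ p ∈ P, ∃ q ∈ P, (dset p A0).card ≤ t ∧
      (dset q A0).card ≤ t ∧ m ≤ pdist p q) ∧
      ¬ (2 * γ < (F.filter (fun A => ∃ p ∈ P, Rel p A A0 ∧ t < (dset p A).card)).card) := by
    by_contra hcon
    have hsub : F ⊆ F.filter (fun A => ∃ p ∈ P, ∃ q ∈ P, (dset p A).card ≤ t ∧
        (dset q A).card ≤ t ∧ m ≤ pdist p q) ∪
        F.filter (fun b => 2 * γ < (F.filter (fun a => ∃ p ∈ P, Rel p a b ∧
          t < (dset p a).card)).card) := by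
      intro A hA
      by_contra h
      rw [mem_union, mem_filter, mem_filter, not_or] at h
      exact hcon ⟨A, hA, fun h' => h.1 ⟨hA, h'⟩, fun h' => h.2 ⟨hA, h'⟩⟩
    have h1 := (card_le_card hsub).trans (card_union_le _ _)
    omega
  -- the small elements at a set which is not bad are close
  have close : ∀ A, ¬ (∃ p ∈ P, ∃ q ∈ P, (dset p A).card ≤ t ∧
      (dset q A).card ≤ t ∧ m ≤ pdist p q) → ∀ p ∈ P, ∀ q ∈ P, (dset p A).card ≤ t →
      (dset q A).card ≤ t → pdist p q < m := by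
    intro A hA p hp q hq h1 h2
    by_contra h
    exact hA ⟨p, hp, q, hq, h1, h2, not_lt.1 h⟩
  have small : ∀ A B, ¬ (∃ p ∈ P, Rel p A B ∧ t < (dset p A).card) → ∀ p ∈ P, Rel p A B →
      (dset p A).card ≤ t := by
    intro A B h p hp hR
    by_contra h'
    exact h ⟨p, hp, hR, not_le.1 h'⟩
  obtain ⟨F', hF'⟩ : ∃ F' : Finset (Finset E), F' = F.filter (fun B =>
      ¬ (∃ p ∈ P, ∃ q ∈ P, (dset p B).card ≤ t ∧ (dset q B).card ≤ t ∧ m ≤ pdist p q) ∧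
      ¬ (∃ p ∈ P, Rel p A0 B ∧ t < (dset p A0).card) ∧
      ¬ (∃ p ∈ P, Rel p B A0 ∧ t < (dset p B).card)) := ⟨_, rfl⟩
  have hsub : F' ⊆ F := by
    rw [hF']
    exact filter_subset _ _
  have hmem : ∀ B ∈ F', ¬ (∃ p ∈ P, ∃ q ∈ P, (dset p B).card ≤ t ∧ (dset q B).card ≤ t ∧
      m ≤ pdist p q) ∧ ¬ (∃ p ∈ P, Rel p A0 B ∧ t < (dset p A0).card) ∧
      ¬ (∃ p ∈ P, Rel p B A0 ∧ t < (dset p B).card) := by
    intro B hB
    rw [hF'] at hB
    exact (mem_filter.1 hB).2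
  have hcard : F.card ≤ F'.card + (β + 3 * γ) := by
    have hcov : F ⊆ F' ∪ (F.filter (fun A => ∃ p ∈ P, ∃ q ∈ P, (dset p A).card ≤ t ∧
        (dset q A).card ≤ t ∧ m ≤ pdist p q) ∪
        (F.filter (fun B => ∃ p ∈ P, Rel p A0 B ∧ t < (dset p A0).card) ∪
          F.filter (fun B => ∃ p ∈ P, Rel p B A0 ∧ t < (dset p B).card))) := by
      intro B hB
      rw [hF', mem_union, mem_union, mem_union, mem_filter, mem_filter, mem_filter, mem_filter]
      tauto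
    have h1 := card_le_card hcov
    have h2 := card_union_le F' (F.filter (fun A => ∃ p ∈ P, ∃ q ∈ P, (dset p A).card ≤ t ∧
        (dset q A).card ≤ t ∧ m ≤ pdist p q) ∪
        (F.filter (fun B => ∃ p ∈ P, Rel p A0 B ∧ t < (dset p A0).card) ∪
          F.filter (fun B => ∃ p ∈ P, Rel p B A0 ∧ t < (dset p B).card)))
    have h3 := card_union_le (F.filter (fun A => ∃ p ∈ P, ∃ q ∈ P, (dset p A).card ≤ t ∧
        (dset q A).card ≤ t ∧ m ≤ pdist p q))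
        (F.filter (fun B => ∃ p ∈ P, Rel p A0 B ∧ t < (dset p A0).card) ∪
          F.filter (fun B => ∃ p ∈ P, Rel p B A0 ∧ t < (dset p B).card))
    have h4 := card_union_le (F.filter (fun B => ∃ p ∈ P, Rel p A0 B ∧ t < (dset p A0).card))
      (F.filter (fun B => ∃ p ∈ P, Rel p B A0 ∧ t < (dset p B).card))
    have h5 := hγ A0 hA0
    omega
  -- a triple
  obtain ⟨B0, hB0, C0, hC0, _, _, e1, e2, _⟩ := exists_triple F'
    (fun A B => ∃ p ∈ P, Rel p A B ∧ t < (dset p A).card) γ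
    (fun a ha => (card_le_card (filter_subset_filter _ hsub)).trans (hγ a (hsub ha))) (by omega)
  obtain ⟨x, hx, hxR⟩ := hF A0 hA0 B0 (hsub hB0)
  have hxs : (dset x A0).card ≤ t := small A0 B0 (hmem B0 hB0).2.1 x hx hxR
  -- non-exceptional relations from `F'`
  have main : ∀ B ∈ F', ∀ C, ¬ (∃ p ∈ P, Rel p B C ∧ t < (dset p B).card) → ∀ z ∈ P,
      Rel z B C → pdist z x⁻¹ < 2 * m := by
    intro B hB C hBC z hz hzR
    have hzs := small B C hBC z hz hzR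
    obtain ⟨p, hp, hpR⟩ := hF A0 hA0 B (hsub hB)
    have hps := small A0 B (hmem B hB).2.1 p hp hpR
    have hpi := small B A0 (hmem B hB).2.2 p⁻¹ (hinv p hp) hpR.inv
    have d1 := close B (hmem B hB).1 z hz p⁻¹ (hinv p hp) hzs hpi
    have d2 := close A0 hA1 p hp x hx hps hxs
    have d3 := pdist_triangle z p⁻¹ x⁻¹
    rw [pdist_inv] at d3
    omega
  have hxx : pdist x x⁻¹ < 4 * m := by
    obtain ⟨z, hz, hzR⟩ := hF B0 (hsub hB0) C0 (hsub hC0)
    have d1 := main B0 hB0 C0 e1 z hz hzR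
    have d2 := main C0 hC0 B0 e2 z⁻¹ (hinv z hz) hzR.inv
    rw [pdist_inv, pdist_comm] at d2
    have d3 := pdist_triangle x z x⁻¹
    omega
  refine ⟨x, hx, F', hsub, hcard, hxx, ?_⟩
  intro B hB
  refine (card_le_card ?_).trans (hγ B (hsub hB))
  intro C hC
  obtain ⟨hC1, z, hz, hzR, hzd⟩ := mem_filter.1 hC
  rw [mem_filter]
  refine ⟨hC1, ?_⟩
  by_contra hex
  have d1 := main B hB C hex z hz hzR
  have d2 := pdist_triangle z x⁻¹ x
  rw [pdist_comm x⁻¹ x] at d2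
  exact hzd ⟨by omega, by omega⟩
end B6

end Pool.MP_ce3f89
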