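import Pool.Agent.Work.MP_ce3f89_co.B3b

/-!
# MP_ce3f89_co, block B7: second round
-/

namespace Pool.MP_ce3f89
open Finset

namespace B7

variable {E : Type*} [Fintype E] [DecidableEq E]

theorem rel_inv {p : Equiv.Perm E} {A B : Finset E} (h : Rel p A B) : Rel p⁻¹ B A := by
  unfold Rel at h ⊢
  rw [← h, Finset.map_map]
  ext x
  simp

end B7

section B7
variable {E : Type*} [Fintype E] [DecidableEq E]

theorem step2 (P Q : Finset (Equiv.Perm E)) (hinv : ∀ p ∈ Q, p⁻¹ ∈ Q) (hQP : Q ⊆ P)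
    (F F' : Finset (Finset E)) (hF : ∀ A ∈ F, ∀ B ∈ F, ∃ p ∈ P, Rel p A B)
    (hsub : F' ⊆ F) (t β γ γ' δ : ℕ) (hcard : F.card ≤ F'.card + δ)
    (hexc : ∀ B ∈ F', (F.filter (fun C => ∃ z ∈ P, Rel z B C ∧ z ∉ Q)).card ≤ γ)
    (hγ : ∀ A ∈ F, (F.filter (fun C => ∃ z ∈ Q, Rel z A C ∧ t < (dset z A).card)).card ≤ γ')
    (hβ : ∀ A ∈ F, (F.filter (fun B => ∃ p ∈ Q, ∃ q ∈ Q, p ≠ q ∧ Rel p B A ∧
      (dset p B).card ≤ t ∧ (dset q B).card ≤ t)).card ≤ β)
    (hM : 20 * (β + γ + γ' + δ) < F.card) :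
    ∃ B ∈ F, ∃ p ∈ Q, p * p = 1 ∧ F.card ≤ (F.filter (fun C => Rel p B C)).card + (γ + γ') := by
  classical
  -- the element with small in-degree
  have h1 := card_large_indeg F F (fun A C => ∃ z ∈ Q, Rel z A C ∧ t < (dset z A).card) γ' hγ
  obtain ⟨A1, hA1, hA1d⟩ : ∃ A1 ∈ F', (F.filter (fun A => ∃ z ∈ Q, Rel z A A1 ∧
      t < (dset z A).card)).card ≤ 2 * γ' := by
    by_contra hcon
    push Not at hcon
    have h2 : F' ⊆ F.filter (fun b => 2 * γ' < (F.filter (fun A => ∃ z ∈ Q, Rel z A b ∧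
        t < (dset z A).card)).card) := by
      intro A hA
      exact Finset.mem_filter.2 ⟨hsub hA, hcon A hA⟩
    have h3 := Finset.card_le_card h2
    omega
  have hA1F := hsub hA1
  set X1 := F.filter (fun C => ∃ z ∈ P, Rel z A1 C ∧ z ∉ Q) with hX1
  set X2 := F.filter (fun A => ∃ z ∈ Q, Rel z A A1 ∧ t < (dset z A).card) with hX2
  set X3 := F.filter (fun B => ∃ p ∈ Q, ∃ q ∈ Q, p ≠ q ∧ Rel p B A1 ∧
      (dset p B).card ≤ t ∧ (dset q B).card ≤ t) with hX3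
  set G := F' \ (X1 ∪ X2 ∪ X3) with hG
  have hGcard : F'.card ≤ G.card + (γ + 2 * γ' + β) := by
    have e1 : F'.card ≤ G.card + (X1 ∪ X2 ∪ X3).card := by
      have := Finset.le_card_sdiff (X1 ∪ X2 ∪ X3) F'
      rw [← hG] at this
      omega
    have e2 : (X1 ∪ X2 ∪ X3).card ≤ X1.card + X2.card + X3.card := by
      refine le_trans (Finset.card_union_le _ _) ?_
      have := Finset.card_union_le X1 X2
      omega
    have e3 : X1.card ≤ γ := by
      have h := hexc A1 hA1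
      rw [hX1]
      convert h
    have e4 : X3.card ≤ β := by
      have h := hβ A1 hA1F
      rw [hX3]
      convert h
    omega
  have hGF' : G ⊆ F' := Finset.sdiff_subset
  have hGF : G ⊆ F := hGF'.trans hsub
  -- the unique permutation
  have huniq : ∀ B ∈ G, ∃ p ∈ Q, ∀ q ∈ Q, (dset q B).card ≤ t → q = p := by
    intro B hB
    obtain ⟨hBF', hBn⟩ := Finset.mem_sdiff.1 hB
    have hBF := hsub hBF'
    simp only [Finset.mem_union, not_or] at hBn
    obtain ⟨⟨n1, n2⟩, n3⟩ := hBn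
    obtain ⟨y, hy, hyr⟩ := hF A1 hA1F B hBF
    have hyQ : y ∈ Q := by
      by_contra hyQ
      exact n1 (Finset.mem_filter.2 ⟨hBF, y, hy, hyr, hyQ⟩)
    have hr : Rel y⁻¹ B A1 := B7.rel_inv hyr
    have hd : (dset y⁻¹ B).card ≤ t := by
      by_contra hd
      exact n2 (Finset.mem_filter.2 ⟨hBF, y⁻¹, hinv y hyQ, hr, by omega⟩)
    refine ⟨y⁻¹, hinv y hyQ, fun q hq hqd => ?_⟩
    by_contra hne
    exact n3 (Finset.mem_filter.2 ⟨hBF, y⁻¹, hinv y hyQ, q, hq, fun h => hne h.symm, hr, hd, hqd⟩)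
  -- exceptional pairs
  set exc : Finset E → Finset E → Prop := fun B C =>
    (∃ z ∈ P, Rel z B C ∧ z ∉ Q) ∨ (∃ z ∈ Q, Rel z B C ∧ t < (dset z B).card) with hexcd
  have hout : ∀ B ∈ G, (F.filter (fun C => exc B C)).card ≤ γ + γ' := by
    intro B hB
    have e1 : F.filter (fun C => exc B C) = F.filter (fun C => ∃ z ∈ P, Rel z B C ∧ z ∉ Q) ∪
        F.filter (fun C => ∃ z ∈ Q, Rel z B C ∧ t < (dset z B).card) := by
      rw [← Finset.filter_or]
    rw [e1]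
    refine le_trans (Finset.card_union_le _ _) ?_
    exact add_le_add (hexc B (hGF' hB)) (hγ B (hGF hB))
  have hgood : ∀ B C, ¬ exc B C → ∀ z ∈ P, Rel z B C → z ∈ Q ∧ (dset z B).card ≤ t := by
    intro B C hn z hz hr
    rw [hexcd] at hn
    simp only [not_or] at hn
    have hzQ : z ∈ Q := by
      by_contra hzQ
      exact hn.1 ⟨z, hz, hr, hzQ⟩
    refine ⟨hzQ, ?_⟩
    by_contra hd
    exact hn.2 ⟨z, hzQ, hr, by omega⟩
  obtain ⟨B, hB, C, hC, D, hD, hBC, hCB, hBD, hDB, hCD, hDC⟩ := exists_triple G exc (γ + γ')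
    (fun a ha => le_trans (Finset.card_le_card (Finset.filter_subset_filter _ hGF)) (hout a ha))
    (by omega)
  -- mutual pairs have inverse permutations
  have hmut : ∀ B ∈ G, ∀ C ∈ G, ¬ exc B C → ¬ exc C B → ∀ p ∈ Q, ∀ p' ∈ Q,
      (∀ q ∈ Q, (dset q B).card ≤ t → q = p) → (∀ q ∈ Q, (dset q C).card ≤ t → q = p') →
      p' = p⁻¹ := by
    intro B hB C hC hBC hCB p hp p' hp' hup hup'
    obtain ⟨z, hz, hzr⟩ := hF B (hGF hB) C (hGF hC)
    obtain ⟨hzQ, hzd⟩ := hgood B C hBC z hz hzr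
    have hzp : z = p := hup z hzQ hzd
    have hr2 : Rel z⁻¹ C B := B7.rel_inv hzr
    obtain ⟨hzQ', hzd'⟩ := hgood C B hCB z⁻¹ (hQP (hinv z hzQ)) hr2
    have := hup' z⁻¹ hzQ' hzd'
    rw [← this, hzp]
  obtain ⟨pB, hpB, huB⟩ := huniq B hB
  obtain ⟨pC, hpC, huC⟩ := huniq C hC
  obtain ⟨pD, hpD, huD⟩ := huniq D hD
  have k1 := hmut B hB C hC hBC hCB pB hpB pC hpC huB huC
  have k2 := hmut B hB D hD hBD hDB pB hpB pD hpD huB huD
  have k3 := hmut C hC D hD hCD hDC pC hpC pD hpD huC huD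
  refine ⟨B, hGF hB, pB, hpB, ?_, ?_⟩
  · have k4 : pB⁻¹ = pB := by
      have : pD = pB := by rw [k3, k1, inv_inv]
      rw [← k2, this]
    nth_rewrite 1 [← k4]
    exact inv_mul_cancel pB
  · have e1 : F ⊆ F.filter (fun C => Rel pB B C) ∪ F.filter (fun C => exc B C) := by
      intro C' hC'
      by_cases hx : exc B C'
      · exact Finset.mem_union_right _ (Finset.mem_filter.2 ⟨hC', hx⟩)
      · refine Finset.mem_union_left _ (Finset.mem_filter.2 ⟨hC', ?_⟩)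
        obtain ⟨z, hz, hzr⟩ := hF B (hGF hB) C' hC'
        obtain ⟨hzQ, hzd⟩ := hgood B C' hx z hz hzr
        rw [← huB z hzQ hzd]
        exact hzr
    have e2 := Finset.card_le_card e1
    have e3 := Finset.card_union_le (F.filter (fun C => Rel pB B C)) (F.filter (fun C => exc B C))
    have e4 := hout B hB
    omega

end B7

end Pool.MP_ce3f89
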