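import Mathlib

/-!
# MP_ce3f89_co : balanced families of graphs, definitions shared by all blocks
-/

namespace Pool.MP_ce3f89

open Finset

section abs

variable {E : Type*} [Fintype E] [DecidableEq E]

/-- `p` maps `A \ B` onto `B \ A`. -/
def Rel (p : Equiv.Perm E) (A B : Finset E) : Prop := (A \ B).map p.toEmbedding = B \ A

instance (p : Equiv.Perm E) (A B : Finset E) : Decidable (Rel p A B) := by
  unfold Rel; infer_instance

/-- the defect set: `e` and `p e` are both in `A` or both outside. -/
def dset (p : Equiv.Perm E) (A : Finset E) : Finset E :=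
  univ.filter (fun e => (e ∈ A ↔ p e ∈ A))

/-- the elements of `A` moved out of `A`. -/
def wset (p : Equiv.Perm E) (A : Finset E) : Finset E :=
  univ.filter (fun e => e ∈ A ∧ p e ∉ A)

/-- the fixed elements of `p`. -/
def fixs (p : Equiv.Perm E) : Finset E := univ.filter (fun e => p e = e)

/-- distance: number of elements on which `p` and `q` differ. -/
def pdist (p q : Equiv.Perm E) : ℕ := (p⁻¹ * q).support.card

end abs

/-- the edges of the complete graph on `Fin n`. -/
abbrev Edg (n : ℕ) : Type := {e : Sym2 (Fin n) // ¬ e.IsDiag}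

theorem map_not_isDiag {n : ℕ} (g : Equiv.Perm (Fin n)) {e : Sym2 (Fin n)} (h : ¬ e.IsDiag) :
    ¬ (Sym2.map g e).IsDiag := by
  induction e with
  | _ x y =>
    simp only [Sym2.map_mk, Sym2.mk_isDiag_iff] at h ⊢
    exact fun hh => h (g.injective hh)

/-- the action of a vertex permutation on the edges. -/
def act {n : ℕ} : Equiv.Perm (Fin n) →* Equiv.Perm (Edg n) where
  toFun g :=
    { toFun := fun e => ⟨Sym2.map g e.1, map_not_isDiag g e.2⟩
      invFun := fun e => ⟨Sym2.map (g⁻¹ : Equiv.Perm (Fin n)) e.1, map_not_isDiag g⁻¹ e.2⟩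
      left_inv := by
        intro e
        apply Subtype.ext
        show Sym2.map _ (Sym2.map _ e.1) = e.1
        rw [Sym2.map_map]
        have : ((g⁻¹ : Equiv.Perm (Fin n)) ∘ g : Fin n → Fin n) = id := by
          funext x; simp
        rw [this, Sym2.map_id]; rfl
      right_inv := by
        intro e
        apply Subtype.ext
        show Sym2.map _ (Sym2.map _ e.1) = e.1
        rw [Sym2.map_map]
        have : (g ∘ (g⁻¹ : Equiv.Perm (Fin n)) : Fin n → Fin n) = id := by
          funext x; simp
        rw [this, Sym2.map_id]; rfl }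
  map_one' := by
    refine Equiv.ext fun e => Subtype.ext ?_
    show Sym2.map _ e.1 = e.1
    simp
  map_mul' g h := by
    refine Equiv.ext fun e => Subtype.ext ?_
    show Sym2.map _ e.1 = Sym2.map _ (Sym2.map _ e.1)
    rw [Sym2.map_map]
    rfl

/-- the edge with two given distinct ends. -/
def mkE {n : ℕ} (x y : Fin n) (h : x ≠ y) : Edg n := ⟨s(x, y), by simpa using h⟩

theorem act_mkE {n : ℕ} (g : Equiv.Perm (Fin n)) (x y : Fin n) (h : x ≠ y) :
    act g (mkE x y h) = mkE (g x) (g y) (fun hh => h (g.injective hh)) := rfl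

theorem act_val {n : ℕ} (g : Equiv.Perm (Fin n)) (e : Edg n) :
    (act g e).1 = Sym2.map g e.1 := rfl

/-- a family of edge sets, pairwise related by vertex permutations. -/
def Fam {n : ℕ} (F : Finset (Finset (Edg n))) : Prop :=
  ∀ A ∈ F, ∀ B ∈ F, ∃ g : Equiv.Perm (Fin n), Rel (act g) A B

/-- balanced families of graphs. -/
def Balanced {n : ℕ} (F : Finset (SimpleGraph (Fin n))) : Prop :=
  ∀ A ∈ F, ∀ B ∈ F, Nonempty ((A \ B) ≃g (B \ A))

/-- the largest size of a balanced family of graphs on `n` labelled vertices. -/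
noncomputable def maxBalanced (n : ℕ) : ℕ :=
  sSup {k : ℕ | ∃ F : Finset (SimpleGraph (Fin n)), Balanced F ∧ F.card = k}

end Pool.MP_ce3f89
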