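import Pool.Agent.Work.MP_ce3f89_co.Defs

/-!
# MP_ce3f89_co : definitions for the exactness blocks (sum of squares of degrees)
-/

namespace Pool.MP_ce3f89

open Finset

variable {n : ℕ}

/-- degree of `v` in the edge set `S`. -/
def deg (S : Finset (Edg n)) (v : Fin n) : ℤ := ((S.filter (fun e => v ∈ e.1)).card : ℤ)

/-- sum of the squares of the degrees. -/
def qf (S : Finset (Edg n)) : ℤ := ∑ v, deg S v ^ 2

/-- difference of the two sums of squares. -/
def Phi (A C : Finset (Edg n)) : ℤ := qf (A \ C) - qf (C \ A)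

/-- exchange of the two members of the pair `{e, σ e}`. -/
def flp (σ : Equiv.Perm (Fin n)) (C : Finset (Edg n)) (e : Edg n) : Finset (Edg n) :=
  symmDiff C {e, act σ e}

/-- `-1` on `A`, `1` off `A`. -/
def al (A : Finset (Edg n)) (e : Edg n) : ℤ := if e ∈ A then -1 else 1

/-- sum of `al` over the pair of `e`. -/
def bet (σ : Equiv.Perm (Fin n)) (A : Finset (Edg n)) (e : Edg n) : ℤ := al A e + al A (act σ e)

/-- number of common ends. -/
def inc (e f : Edg n) : ℤ := ((univ.filter (fun v : Fin n => v ∈ e.1 ∧ v ∈ f.1)).card : ℤ)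

/-- degree difference on the fixed edges. -/
def gg (σ : Equiv.Perm (Fin n)) (A B : Finset (Edg n)) (v : Fin n) : ℤ :=
  deg ((A \ B) ∩ fixs (act σ)) v - deg ((B \ A) ∩ fixs (act σ)) v

end Pool.MP_ce3f89
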