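import Pool.Agent.Work.MP_ce3f89_co.DefsQ

/-! # Block Q3: the second difference -/

namespace Pool.MP_ce3f89
open Finset

variable {n : ℕ}

namespace Q3

/-- incidence. -/
def mm (v : Fin n) (e : Edg n) : ℤ := if v ∈ e.1 then 1 else 0

/-- indicator. -/
def cc (C : Finset (Edg n)) (e : Edg n) : ℤ := if e ∈ C then 1 else 0

lemma deg_eq (S : Finset (Edg n)) (v : Fin n) : deg S v = ∑ e, cc S e * mm v e := by
  unfold deg
  rw [Finset.card_filter, Nat.cast_sum]
  have h : ∀ f : Edg n → ℤ, ∑ e ∈ S, f e = ∑ e, cc S e * f e := by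
    intro f
    rw [← Finset.sum_filter_add_sum_filter_not univ (fun e => e ∈ S)]
    have h1 : ∑ e ∈ univ.filter (fun e => ¬ e ∈ S), cc S e * f e = 0 := by
      apply Finset.sum_eq_zero
      intro e he
      rw [mem_filter] at he
      simp [cc, he.2]
    have h2 : ∑ e ∈ univ.filter (fun e => e ∈ S), cc S e * f e = ∑ e ∈ S, f e := by
      rw [Finset.filter_mem_eq_inter, Finset.univ_inter]
      apply Finset.sum_congr rfl
      intro e he
      simp [cc, he]
    rw [h1, h2, add_zero]
  rw [h]
  apply Finset.sum_congr rfl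
  intro e _
  unfold mm
  split_ifs <;> simp

lemma al_eq (A : Finset (Edg n)) (e : Edg n) : al A e = 1 - 2 * cc A e := by
  unfold al cc
  split_ifs <;> ring

lemma inc_eq (e f : Edg n) : inc e f = ∑ v, mm v e * mm v f := by
  unfold inc
  rw [Finset.card_filter, Nat.cast_sum]
  apply Finset.sum_congr rfl
  intro v _
  unfold mm
  by_cases h1 : v ∈ e.1 <;> by_cases h2 : v ∈ f.1 <;> simp [h1, h2]

/-- `Phi` as a sum of products of affine functions. -/
lemma Phi_eq (A C : Finset (Edg n)) : Phi A C =
    ∑ v, (deg A v - ∑ e, cc C e * mm v e) * (deg A v + ∑ e, cc C e * (al A e * mm v e)) := by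
  unfold Phi qf
  rw [← Finset.sum_sub_distrib]
  apply Finset.sum_congr rfl
  intro v _
  have h1 : deg (A \ C) v - deg (C \ A) v = deg A v - ∑ e, cc C e * mm v e := by
    rw [deg_eq, deg_eq, deg_eq, ← Finset.sum_sub_distrib, ← Finset.sum_sub_distrib]
    apply Finset.sum_congr rfl
    intro e _
    unfold cc
    by_cases h1 : e ∈ A <;> by_cases h2 : e ∈ C <;> simp [h1, h2]
  have h2 : deg (A \ C) v + deg (C \ A) v = deg A v + ∑ e, cc C e * (al A e * mm v e) := by
    rw [deg_eq, deg_eq, deg_eq, ← Finset.sum_add_distrib, ← Finset.sum_add_distrib]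
    apply Finset.sum_congr rfl
    intro e _
    unfold cc al
    by_cases h1 : e ∈ A <;> by_cases h2 : e ∈ C <;> simp [h1, h2]
  rw [← h1, ← h2]
  ring

lemma act_act (σ : Equiv.Perm (Fin n)) (hσ : σ * σ = 1) (e : Edg n) :
    act σ (act σ e) = e := by
  rw [← Equiv.Perm.mul_apply, ← map_mul, hσ, map_one, Equiv.Perm.one_apply]

lemma mm_act (σ : Equiv.Perm (Fin n)) (v : Fin n) (e : Edg n) :
    mm (σ v) (act σ e) = mm v e := by
  unfold mm
  rw [act_val]
  congr 1
  rw [Sym2.mem_map, eq_iff_iff]
  constructor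
  · rintro ⟨a, ha, hav⟩
    rwa [← σ.injective hav]
  · intro h
    exact ⟨v, h, rfl⟩

lemma inc_act (σ : Equiv.Perm (Fin n)) (e f : Edg n) : inc (act σ e) (act σ f) = inc e f := by
  rw [inc_eq, inc_eq, ← Equiv.sum_comp σ]
  apply Finset.sum_congr rfl
  intro v _
  rw [mm_act, mm_act]

/-- the change of a linear function under a flip. -/
lemma sum_flp (σ : Equiv.Perm (Fin n)) (C : Finset (Edg n)) (e : Edg n)
    (he : e ∉ fixs (act σ)) (hCe : e ∈ C ↔ act σ e ∉ C) (g : Edg n → ℤ) :
    ∑ x, cc (flp σ C e) x * g x =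
      ∑ x, cc C x * g x + (1 - 2 * cc C e) * (g e - g (act σ e)) := by
  have hne : act σ e ≠ e := by
    intro h
    exact he (by simp [fixs, h])
  have h1 : ∀ x, cc (flp σ C e) x * g x = cc C x * g x +
      ((if x = e then (1 - 2 * cc C e) * g e else 0) -
        (if x = act σ e then (1 - 2 * cc C e) * g (act σ e) else 0)) := by
    intro x
    have hm : x ∈ flp σ C e ↔ (x ∈ C ∧ ¬ (x = e ∨ x = act σ e)) ∨ ((x = e ∨ x = act σ e) ∧ x ∉ C) := by
      unfold flp
      rw [Finset.mem_symmDiff, mem_insert, mem_singleton]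
    by_cases hx : x = e
    · subst hx
      rw [if_pos rfl, if_neg (Ne.symm hne)]
      by_cases hc : x ∈ C
      · have : x ∉ flp σ C x := by rw [hm]; tauto
        simp only [cc, this, hc, if_true, if_false]
        ring
      · have : x ∈ flp σ C x := by rw [hm]; tauto
        simp only [cc, this, hc, if_true, if_false]
        ring
    · by_cases hx' : x = act σ e
      · subst hx'
        rw [if_neg hx, if_pos rfl]
        by_cases hc : act σ e ∈ C
        · have h2 : act σ e ∉ flp σ C e := by rw [hm]; tauto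
          have h3 : e ∉ C := by tauto
          simp only [cc, h2, hc, h3, if_true, if_false]
          ring
        · have h2 : act σ e ∈ flp σ C e := by rw [hm]; tauto
          have h3 : e ∈ C := by tauto
          simp only [cc, h2, hc, h3, if_true, if_false]
          ring
      · rw [if_neg hx, if_neg hx']
        have h2 : x ∈ flp σ C e ↔ x ∈ C := by rw [hm]; tauto
        simp only [cc, h2]
        ring
  rw [Finset.sum_congr rfl (fun x _ => h1 x), Finset.sum_add_distrib, Finset.sum_sub_distrib,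
    Finset.sum_ite_eq' , Finset.sum_ite_eq']
  simp only [mem_univ, if_true]
  ring

end Q3

open Q3

theorem second_diff (σ : Equiv.Perm (Fin n)) (hσ : σ * σ = 1) (A C : Finset (Edg n))
    (e f : Edg n) (he : e ∉ fixs (act σ)) (hf : f ∉ fixs (act σ)) (hne : f ≠ e)
    (hne' : f ≠ act σ e) (hCe : e ∈ C ↔ act σ e ∉ C) (hCf : f ∈ C ↔ act σ f ∉ C)
    (h1 : Phi A C = 0) (h2 : Phi A (flp σ C e) = 0) (h3 : Phi A (flp σ C f) = 0)
    (h4 : Phi A (flp σ (flp σ C e) f) = 0) :
    (bet σ A e + bet σ A f) * (inc e f - inc e (act σ f)) = 0 := by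
  have hfe1 : act σ f ≠ e := by
    intro h
    apply hne'
    rw [← h, act_act σ hσ]
  have hfe2 : act σ f ≠ act σ e := fun h => hne ((act σ).injective h)
  have m1 : ∀ x, x ≠ e → x ≠ act σ e → (x ∈ flp σ C e ↔ x ∈ C) := by
    intro x hx hx'
    unfold flp
    rw [Finset.mem_symmDiff, mem_insert, mem_singleton]
    tauto
  have hCf' : f ∈ flp σ C e ↔ act σ f ∉ flp σ C e := by
    rw [m1 f hne hne', m1 _ hfe1 hfe2]
    exact hCf
  have hcf : cc (flp σ C e) f = cc C f := by
    unfold cc
    simp only [m1 f hne hne']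
  rw [Phi_eq] at h1 h2 h3 h4
  simp only [sum_flp σ (flp σ C e) f hf hCf', sum_flp σ C e he hCe, sum_flp σ C f hf hCf, hcf]
    at h2 h3 h4
  have hs1 : (1 - 2 * cc C e) ≠ 0 := by
    unfold cc; split_ifs <;> norm_num
  have hs2 : (1 - 2 * cc C f) ≠ 0 := by
    unfold cc; split_ifs <;> norm_num
  set s1 := (1 - 2 * cc C e) with hs1'
  set s2 := (1 - 2 * cc C f) with hs2'
  have key : s1 * s2 * ∑ v, ((mm v e - mm v (act σ e)) *
      (al A f * mm v f - al A (act σ f) * mm v (act σ f)) +
      (mm v f - mm v (act σ f)) * (al A e * mm v e - al A (act σ e) * mm v (act σ e))) = 0 := by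
    have h5 := congrArg₂ (fun x y : ℤ => x - y)
      (congrArg₂ (fun x y : ℤ => x - y) (congrArg₂ (fun x y : ℤ => x + y) h2 h3) h4) h1
    beta_reduce at h5
    rw [← Finset.sum_add_distrib, ← Finset.sum_sub_distrib, ← Finset.sum_sub_distrib] at h5
    rw [Finset.mul_sum]
    refine (Finset.sum_congr rfl fun v _ => ?_).trans (h5.trans (by norm_num))
    ring
  have key2 : ∑ v, ((mm v e - mm v (act σ e)) *
      (al A f * mm v f - al A (act σ f) * mm v (act σ f)) +
      (mm v f - mm v (act σ f)) * (al A e * mm v e - al A (act σ e) * mm v (act σ e))) =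
      al A f * inc e f - al A (act σ f) * inc e (act σ f) - al A f * inc (act σ e) f +
      al A (act σ f) * inc (act σ e) (act σ f) + al A e * inc e f -
      al A (act σ e) * inc (act σ e) f - al A e * inc e (act σ f) +
      al A (act σ e) * inc (act σ e) (act σ f) := by
    simp only [inc_eq, Finset.mul_sum]
    rw [← Finset.sum_sub_distrib, ← Finset.sum_sub_distrib, ← Finset.sum_add_distrib,
      ← Finset.sum_add_distrib, ← Finset.sum_sub_distrib, ← Finset.sum_sub_distrib,
      ← Finset.sum_add_distrib]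
    apply Finset.sum_congr rfl
    intro v _
    ring
  have i1 : inc (act σ e) (act σ f) = inc e f := inc_act σ e f
  have i2 : inc (act σ e) f = inc e (act σ f) := by
    have := inc_act σ e (act σ f)
    rwa [act_act σ hσ] at this
  rw [i1, i2] at key2
  rcases mul_eq_zero.1 key with h | h
  · rcases mul_eq_zero.1 h with h | h
    · exact absurd h hs1
    · exact absurd h hs2
  · rw [key2] at h
    unfold bet
    linear_combination h

end Pool.MP_ce3f89
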