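import Pool.Agent.Work.MP_ce3f89_co.Q3

/-! # Block Q5: the first difference -/

namespace Pool.MP_ce3f89
open Finset

variable {n : ℕ}

namespace Q5

open Q3

lemma sum_act (σ : Equiv.Perm (Fin n)) (g : Edg n → ℤ) : ∑ e, g (act σ e) = ∑ e, g e :=
  Equiv.sum_comp (act σ) g

/-- symmetric sums. -/
lemma sum_sym (σ : Equiv.Perm (Fin n)) (w : Edg n → ℤ) (hw : ∀ e, w (act σ e) = w e) (v : Fin n) :
    ∑ e, w e * mm (σ v) e = ∑ e, w e * mm v e := by
  rw [← sum_act σ]
  apply Finset.sum_congr rfl
  intro e _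
  rw [mm_act, hw]

lemma sum_anti (σ : Equiv.Perm (Fin n)) (w : Edg n → ℤ) (hw : ∀ e, w (act σ e) = - w e)
    (v : Fin n) : ∑ e, w e * mm (σ v) e = - ∑ e, w e * mm v e := by
  rw [← sum_act σ, ← Finset.sum_neg_distrib]
  apply Finset.sum_congr rfl
  intro e _
  rw [mm_act, hw]
  ring

/-- an antisymmetric function has sum zero. -/
lemma sum_zero (σ : Equiv.Perm (Fin n)) (F : Fin n → ℤ) (hF : ∀ v, F (σ v) = - F v) :
    ∑ v, F v = 0 := by
  have h : ∑ v, F v = - ∑ v, F v := by
    nth_rewrite 1 [← Equiv.sum_comp σ F]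
    rw [← Finset.sum_neg_distrib]
    exact Finset.sum_congr rfl fun v _ => hF v
  omega

end Q5

open Q3 Q5

theorem first_diff (σ : Equiv.Perm (Fin n)) (hσ : σ * σ = 1) (A B C : Finset (Edg n))
    (hA : ∀ e, e ∉ fixs (act σ) → bet σ A e = 0)
    (hCf : ∀ e, e ∈ fixs (act σ) → (e ∈ C ↔ e ∈ B))
    (hC : ∀ e, e ∉ fixs (act σ) → (e ∈ C ↔ act σ e ∉ C))
    (e : Edg n) (he : e ∉ fixs (act σ)) (h : Phi A C = Phi A (flp σ C e)) :
    ∑ v : Fin n, (if v ∈ e.1 then gg σ A B v else 0) = 0 := by
  have haa := act_act σ hσ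
  have hfx : ∀ x, x ∈ fixs (act σ) ↔ act σ x = x := fun x => by simp [fixs]
  have hfx' : ∀ x, act σ x ∈ fixs (act σ) ↔ x ∈ fixs (act σ) := fun x => by
    rw [hfx, hfx, haa]; exact eq_comm
  -- the weights
  set w1 : Edg n → ℤ := fun x => if x ∈ fixs (act σ) then cc A x - cc B x else 0 with hw1
  set w2 : Edg n → ℤ := fun x => if x ∈ fixs (act σ) then 0 else cc A x - cc C x with hw2
  set w3 : Edg n → ℤ := fun x => cc A x + cc C x * al A x with hw3
  have hA' : ∀ x, x ∉ fixs (act σ) → cc A (act σ x) = 1 - cc A x := by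
    intro x hx
    have := hA x hx
    unfold bet at this
    rw [al_eq, al_eq] at this
    linarith
  have hC' : ∀ x, x ∉ fixs (act σ) → cc C (act σ x) = 1 - cc C x := by
    intro x hx
    have := hC x hx
    unfold cc
    by_cases h1 : x ∈ C
    · have h2 : act σ x ∉ C := this.1 h1
      simp [h1, h2]
    · have h2 : act σ x ∈ C := by
        by_contra h2
        exact h1 (this.2 h2)
      simp [h1, h2]
  have s1 : ∀ x, w1 (act σ x) = w1 x := by
    intro x
    simp only [hw1, hfx']
    split_ifs with hx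
    · rw [(hfx x).1 hx]
    · rfl
  have s2 : ∀ x, w2 (act σ x) = - w2 x := by
    intro x
    simp only [hw2, hfx']
    split_ifs with hx
    · ring
    · rw [hA' x hx, hC' x hx]; ring
  have s3 : ∀ x, w3 (act σ x) = w3 x := by
    intro x
    by_cases hx : x ∈ fixs (act σ)
    · rw [(hfx x).1 hx]
    · simp only [hw3, al_eq, hA' x hx, hC' x hx]
      ring
  set U1 : Fin n → ℤ := fun v => ∑ x, w1 x * mm v x with hU1
  set U2 : Fin n → ℤ := fun v => ∑ x, w2 x * mm v x with hU2
  set W : Fin n → ℤ := fun v => ∑ x, w3 x * mm v x with hW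
  have hUeq : ∀ v, deg A v - ∑ x, cc C x * mm v x = U1 v + U2 v := by
    intro v
    rw [deg_eq, hU1, hU2]
    simp only
    rw [← Finset.sum_sub_distrib, ← Finset.sum_add_distrib]
    apply Finset.sum_congr rfl
    intro x _
    simp only [hw1, hw2]
    by_cases hx : x ∈ fixs (act σ)
    · have h1 : cc C x = cc B x := by
        unfold cc; simp only [hCf x hx]
      simp only [hx, if_true, h1]
      ring
    · simp only [hx, if_false]
      ring
  have hWeq : ∀ v, deg A v + ∑ x, cc C x * (al A x * mm v x) = W v := by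
    intro v
    rw [deg_eq, hW]
    simp only
    rw [← Finset.sum_add_distrib]
    apply Finset.sum_congr rfl
    intro x _
    simp only [hw3]
    ring
  have hgg : ∀ v, gg σ A B v = U1 v := by
    intro v
    unfold gg
    rw [deg_eq, deg_eq, ← Finset.sum_sub_distrib, hU1]
    simp only
    apply Finset.sum_congr rfl
    intro x _
    simp only [hw1, cc, mem_inter, mem_sdiff]
    by_cases h1 : x ∈ fixs (act σ) <;> by_cases h2 : x ∈ A <;> by_cases h3 : x ∈ B <;>
      simp [h1, h2, h3]
  rw [Phi_eq, Phi_eq] at h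
  simp only [sum_flp σ C e he (hC e he)] at h
  have hs : (1 - 2 * cc C e) ≠ 0 := by
    unfold cc; split_ifs <;> norm_num
  set s := (1 - 2 * cc C e) with hs'
  have hal : al A (act σ e) = - al A e := by
    have := hA e he
    unfold bet at this
    linarith
  have hal0 : al A e ≠ 0 := by
    unfold al; split_ifs <;> norm_num
  have h6 : ∑ v, ((U1 v + U2 v - s * (mm v e - mm v (act σ e))) *
      (W v + s * (al A e * (mm v e + mm v (act σ e)))) - (U1 v + U2 v) * W v) = 0 := by
    rw [Finset.sum_sub_distrib, sub_eq_zero]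
    refine Eq.trans ?_ (h.symm.trans ?_)
    · apply Finset.sum_congr rfl
      intro v _
      rw [← hUeq, ← hWeq, hal]
      ring
    · apply Finset.sum_congr rfl
      intro v _
      rw [← hUeq, ← hWeq]
  have hm : ∀ v, mm (σ v) e = mm v (act σ e) := by
    intro v
    have := mm_act σ v (act σ e)
    rwa [haa] at this
  have hm' : ∀ v, mm (σ v) (act σ e) = mm v e := fun v => mm_act σ v e
  have z1 : ∑ v, U2 v * (mm v e + mm v (act σ e)) = 0 := by
    apply sum_zero σ
    intro v
    have h1 : U2 (σ v) = - U2 v := sum_anti σ w2 s2 v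
    rw [h1, hm, hm']
    ring
  have z2 : ∑ v, (mm v e - mm v (act σ e)) * W v = 0 := by
    apply sum_zero σ
    intro v
    have h1 : W (σ v) = W v := sum_sym σ w3 s3 v
    rw [h1, hm, hm']
    ring
  have z3 : ∑ v, (mm v e - mm v (act σ e)) * (mm v e + mm v (act σ e)) = 0 := by
    apply sum_zero σ
    intro v
    rw [hm, hm']
    ring
  have z4 : ∑ v, U1 v * (mm v e - mm v (act σ e)) = 0 := by
    apply sum_zero σ
    intro v
    have h1 : U1 (σ v) = U1 v := sum_sym σ w1 s1 v
    rw [h1, hm, hm']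
    ring
  have z5 : s * al A e * (2 * ∑ v, U1 v * mm v e) = 0 := by
    have e1 : ∑ v, ((U1 v + U2 v - s * (mm v e - mm v (act σ e))) *
      (W v + s * (al A e * (mm v e + mm v (act σ e)))) - (U1 v + U2 v) * W v) =
      s * al A e * (2 * ∑ v, U1 v * mm v e) - s * al A e * ∑ v, U1 v * (mm v e - mm v (act σ e)) +
      s * al A e * ∑ v, U2 v * (mm v e + mm v (act σ e)) -
      s * ∑ v, (mm v e - mm v (act σ e)) * W v -
      s * s * al A e * ∑ v, (mm v e - mm v (act σ e)) * (mm v e + mm v (act σ e)) := by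
      simp only [Finset.mul_sum]
      rw [← Finset.sum_sub_distrib, ← Finset.sum_add_distrib, ← Finset.sum_sub_distrib,
        ← Finset.sum_sub_distrib]
      apply Finset.sum_congr rfl
      intro v _
      ring
    rw [h6, z1, z2, z3, z4] at e1
    linarith
  have z6 : ∑ v, U1 v * mm v e = 0 := by
    rcases mul_eq_zero.1 z5 with h | h
    · rcases mul_eq_zero.1 h with h | h
      · exact absurd h hs
      · exact absurd h hal0
    · linarith
  refine Eq.trans (Finset.sum_congr rfl fun v _ => ?_) z6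
  rw [hgg]
  unfold mm
  split_ifs <;> simp

end Pool.MP_ce3f89
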